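import Mathlib
import Pool.Agent.Q293.DMP.Choice

set_option autoImplicit false

open Finset Filter
open scoped symmDiff

namespace Pool.Agent.Results.MP_7de56e_co.LimitOne

/-- The degree of the vertex `v` in the graph `G_j` formed by the edges of colour `j` of the
coloured complete graph on `Fin n`. -/
def deg {n k : ℕ} (c : Sym2 (Fin n) → Fin k) (j : Fin k) (v : Fin n) : ℕ :=
  (univ.filter fun u => u ≠ v ∧ c s(u, v) = j).card

/-- Some `G_j` contains a degree-monotone path of order `m`. -/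
def HasMonotonePath {n k : ℕ} (c : Sym2 (Fin n) → Fin k) (m : ℕ) : Prop :=
  ∃ j : Fin k, ∃ p : Fin m → Fin n, Function.Injective p ∧
    ∀ a b : Fin m, (a : ℕ) + 1 = b → c s(p a, p b) = j ∧ deg c j (p a) ≤ deg c j (p b)

/-- The numbers `M` such that for all `n ≥ M` every colouring of the edges of `K_n` with `k` colours
has a degree-monotone path of order `m` in one of the colours. -/
def Good (k m : ℕ) : Set ℕ :=
  {M | ∀ n : ℕ, M ≤ n → ∀ c : Sym2 (Fin n) → Fin k, HasMonotonePath c m}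

/-- The Ramsey number `M_k(m)`. -/
noncomputable def M (k m : ℕ) : ℕ := sInf (Good k m)

lemma upper (k n : ℕ) (hn : 2 ^ k + 1 ≤ n) (c : Sym2 (Fin n) → Fin k) : HasMonotonePath c 3 := by
  classical
  let φ : Fin n → Finset (Fin k) := fun v => univ.filter fun j =>
    ∃ u, u ≠ v ∧ c s(u, v) = j ∧ (deg c j u < deg c j v ∨ (deg c j u = deg c j v ∧ u < v))
  obtain ⟨u, v, huv, hφ⟩ : ∃ u v, u ≠ v ∧ φ u = φ v := by
    by_contra hcon
    push Not at hcon
    have hinj : Function.Injective φ := fun a b h => by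
      by_contra hne
      exact hcon a b hne h
    have := Fintype.card_le_of_injective φ hinj
    rw [Fintype.card_fin, Fintype.card_finset, Fintype.card_fin] at this
    omega
  -- order the two vertices
  have key : ∀ u v : Fin n, u ≠ v → φ u = φ v →
      (deg c (c s(u, v)) u < deg c (c s(u, v)) v ∨
        (deg c (c s(u, v)) u = deg c (c s(u, v)) v ∧ u < v)) → HasMonotonePath c 3 := by
    intro u v huv hφ hlt
    have h1 : c s(u, v) ∈ φ v := by
      simp only [φ, mem_filter, mem_univ, true_and]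
      exact ⟨u, huv, rfl, hlt⟩
    rw [← hφ] at h1
    simp only [φ, mem_filter, mem_univ, true_and] at h1
    obtain ⟨w, hwu, hw, hwlt⟩ := h1
    have hwv : w ≠ v := by
      rintro rfl
      rcases hlt with h | h <;> rcases hwlt with h' | h'
      · omega
      · omega
      · omega
      · exact absurd h'.2 (not_lt.2 h.2.le)
    refine ⟨c s(u, v), ![w, u, v], ?_, ?_⟩
    · intro a b hab
      fin_cases a <;> fin_cases b <;> simp_all
    · intro a b hab
      have h3 : (a = 0 ∧ b = 1) ∨ (a = 1 ∧ b = 2) := by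
        have ha := a.isLt
        have hb := b.isLt
        rcases (by omega : (a : ℕ) = 0 ∧ (b : ℕ) = 1 ∨ (a : ℕ) = 1 ∧ (b : ℕ) = 2) with h | h
        · exact Or.inl ⟨Fin.ext h.1, Fin.ext h.2⟩
        · exact Or.inr ⟨Fin.ext h.1, Fin.ext h.2⟩
      rcases h3 with ⟨rfl, rfl⟩ | ⟨rfl, rfl⟩
      · refine ⟨by simpa using hw, ?_⟩
        simp only [Matrix.cons_val_zero, Matrix.cons_val_one]
        omega
      · refine ⟨by simp, ?_⟩
        simp only [Matrix.cons_val_one, Matrix.cons_val]
        omega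
  rcases lt_trichotomy (deg c (c s(u, v)) u) (deg c (c s(u, v)) v) with h | h | h
  · exact key u v huv hφ (Or.inl h)
  · rcases lt_or_gt_of_ne huv with h' | h'
    · exact key u v huv hφ (Or.inr ⟨h, h'⟩)
    · refine key v u huv.symm hφ.symm (Or.inr ?_)
      rw [Sym2.eq_swap]
      exact ⟨h.symm, h'⟩
  · refine key v u huv.symm hφ.symm (Or.inl ?_)
    rw [Sym2.eq_swap]
    exact h

lemma good_upper (k : ℕ) : 2 ^ k + 1 ∈ Good k 3 := fun n hn c => upper k n hn c

lemma isLeast (k : ℕ) : IsLeast (Good k 3) (M k 3) :=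
  ⟨Nat.sInf_mem ⟨_, good_upper k⟩, fun _ h => Nat.sInf_le h⟩

/-- the vertices of the construction -/
abbrev V (k : ℕ) : Type := {w : Finset (Fin k) // 4 ≤ w.card}

lemma card_V (k : ℕ) (hk : 1 ≤ k) : 2 ^ k ≤ Fintype.card (V k) + 4 * k ^ 3 := by
  have h1 : (univ : Finset (Finset (Fin k))) ⊆
      (univ.filter fun w : Finset (Fin k) => 4 ≤ w.card) ∪
        (range 4).biUnion fun i => powersetCard i univ := by
    intro w _
    rw [mem_union, mem_filter, mem_biUnion]
    by_cases h : 4 ≤ w.card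
    · exact Or.inl ⟨mem_univ _, h⟩
    · refine Or.inr ⟨w.card, mem_range.2 (by omega), ?_⟩
      rw [mem_powersetCard]
      exact ⟨subset_univ _, rfl⟩
  have h2 := (card_le_card h1).trans (card_union_le _ _)
  rw [card_univ, Fintype.card_finset, Fintype.card_fin] at h2
  rw [Fintype.card_subtype]
  have h3 : ((range 4).biUnion fun i => powersetCard i (univ : Finset (Fin k))).card ≤
      4 * k ^ 3 := by
    refine card_biUnion_le.trans ?_
    refine (Finset.sum_le_card_nsmul (range 4) _ (k ^ 3) fun i hi => ?_).trans (by simp)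
    rw [card_powersetCard, card_univ, Fintype.card_fin]
    rw [mem_range] at hi
    exact (Nat.choose_le_pow k i).trans (Nat.pow_le_pow_right hk (by omega))
  omega

open Pool.Agent.Q293.DMP in
lemma construction (k : ℕ) (hk : 2000 ≤ k) :
    ∃ c : Sym2 (Fin (Fintype.card (V k))) → Fin k, ¬ HasMonotonePath c 3 := by
  classical
  obtain ⟨J, hJ, hX⟩ := exists_J hk
  let e : Fin (Fintype.card (V k)) ≃ V k := (Fintype.equivFin (V k)).symm
  let c : Sym2 (Fin (Fintype.card (V k))) → Fin k :=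
    Sym2.lift ⟨fun a b => J ((e a).1 ∆ (e b).1), fun a b => by
      change J ((e a).1 ∆ (e b).1) = J ((e b).1 ∆ (e a).1)
      rw [symmDiff_comm]⟩
  have hc : ∀ a b, c s(a, b) = J ((e a).1 ∆ (e b).1) := fun a b => by
    simp only [c, Sym2.lift_mk]
  have hne : ∀ a b, a ≠ b → (e a).1 ∆ (e b).1 ≠ ∅ := by
    intro a b hab h
    rw [← Finset.bot_eq_empty, symmDiff_eq_bot] at h
    exact hab (e.injective (Subtype.ext h))
  -- the degrees
  have hdeg : ∀ (j : Fin k) (a : Fin (Fintype.card (V k))),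
      deg c j a + X (D (e a).1 j) j J = (univ.filter fun d => d ≠ ∅ ∧ J d = j).card := by
    intro j a
    rw [← Finset.card_filter_add_card_filter_not (s := univ.filter fun d => d ≠ ∅ ∧ J d = j)
      (fun d => 4 ≤ (d ∆ (e a).1).card)]
    congr 1
    · rw [deg]
      refine Finset.card_bij (fun b _ => (e b).1 ∆ (e a).1) ?_ ?_ ?_
      · intro b hb
        simp only [mem_filter, mem_univ, true_and] at hb ⊢
        rw [symmDiff_symmDiff_cancel_right]
        exact ⟨⟨hne _ _ hb.1, by rw [← hc]; exact hb.2⟩, (e b).2⟩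
      · intro b _ b' _ h
        exact e.injective (Subtype.ext (symmDiff_left_injective _ h))
      · intro d hd
        simp only [mem_filter, mem_univ, true_and] at hd
        refine ⟨e.symm ⟨d ∆ (e a).1, hd.2⟩, ?_, ?_⟩
        · simp only [mem_filter, mem_univ, true_and]
          have h1 : (e (e.symm ⟨d ∆ (e a).1, hd.2⟩)).1 ∆ (e a).1 = d := by
            rw [Equiv.apply_symm_apply]
            exact symmDiff_symmDiff_cancel_right _ _
          refine ⟨?_, by rw [hc, h1]; exact hd.1.2⟩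
          rintro h
          rw [h, symmDiff_self, Finset.bot_eq_empty] at h1
          exact hd.1.1 h1.symm
        · rw [Equiv.apply_symm_apply]
          exact symmDiff_symmDiff_cancel_right _ _
    · rw [X]
      congr 1
      ext d
      simp only [mem_filter, mem_univ, true_and, mem_D]
      constructor
      · rintro ⟨⟨h1, h2⟩, h3⟩
        refine ⟨⟨Finset.ne_empty_of_mem h2, h3⟩, by omega⟩
      · rintro ⟨⟨h1, h2⟩, h3⟩
        exact ⟨⟨by omega, h2 ▸ hJ d h1⟩, h2⟩
  have hlt : ∀ (j : Fin k) (a b : Fin (Fintype.card (V k))), j ∈ (e a).1 → j ∉ (e b).1 →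
      deg c j a < deg c j b := by
    intro j a b ha hb
    have h1 := hdeg j a
    have h2 := hdeg j b
    have h3 := (hX (e a).1 (e a).2 j).1 ha
    have h4 := (hX (e b).1 (e b).2 j).2 hb
    have h5 : X (D (e b).1 j) j J < X (D (e a).1 j) j J := by
      exact_mod_cast h4.trans h3
    omega
  have hadj : ∀ (j : Fin k) (a b : Fin (Fintype.card (V k))), a ≠ b → c s(a, b) = j →
      (j ∈ (e a).1 ∧ j ∉ (e b).1) ∨ (j ∈ (e b).1 ∧ j ∉ (e a).1) := by
    intro j a b hab h
    have h1 := hJ _ (hne a b hab)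
    rw [← hc, h, Finset.mem_symmDiff] at h1
    exact h1
  refine ⟨c, ?_⟩
  rintro ⟨j, p, hp, hpath⟩
  have h01 := hpath 0 1 rfl
  have h12 := hpath 1 2 rfl
  have n01 : p 0 ≠ p 1 := fun h => by simpa using hp h
  have n12 : p 1 ≠ p 2 := fun h => by simpa using hp h
  rcases hadj j _ _ n01 h01.1 with h | h
  · rcases hadj j _ _ n12 h12.1 with h' | h'
    · exact h.2 h'.1
    · have := hlt j _ _ h'.1 h'.2
      omega
  · have := hlt j _ _ h.1 h.2
    omega

lemma lower (k : ℕ) (hk : 2000 ≤ k) : 2 ^ k < M k 3 + 4 * k ^ 3 := by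
  obtain ⟨c, hc⟩ := construction k hk
  have h1 := card_V k (by omega)
  have h2 : Fintype.card (V k) < M k 3 := by
    by_contra hcon
    exact hc ((isLeast k).1 _ (not_lt.1 hcon) c)
  omega

/-- The limit of `M_k(3) / 2^k` exists and is equal to `1`; more precisely
`2^k - 4 k^3 < M_k(3) ≤ 2^k + 1` for all `k ≥ 2000`. The number `M_k(3)` is the least element of the
set `Good k 3` for every `k`. -/
theorem result :
    Tendsto (fun k : ℕ => (M k 3 : ℝ) / 2 ^ k) atTop (nhds 1) ∧
    (∀ k : ℕ, 2000 ≤ k → 2 ^ k < M k 3 + 4 * k ^ 3) ∧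
    ∀ k : ℕ, IsLeast (Good k 3) (M k 3) ∧ M k 3 ≤ 2 ^ k + 1 := by
  refine ⟨?_, lower, fun k => ⟨isLeast k, Nat.sInf_le (good_upper k)⟩⟩
  have h1 : Tendsto (fun k : ℕ => (k : ℝ) ^ 3 / 2 ^ k) atTop (nhds 0) :=
    tendsto_pow_const_div_const_pow_of_one_lt 3 (by norm_num)
  have h2 : Tendsto (fun k : ℕ => (1 : ℝ) - 4 * ((k : ℝ) ^ 3 / 2 ^ k)) atTop (nhds 1) := by
    have := (h1.const_mul 4).const_sub 1
    simpa using this
  have h3 : Tendsto (fun k : ℕ => (1 : ℝ) + (1 / 2) ^ k) atTop (nhds 1) := by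
    have := (tendsto_pow_atTop_nhds_zero_of_lt_one (r := (1 / 2 : ℝ)) (by norm_num)
      (by norm_num)).const_add 1
    simpa using this
  refine tendsto_of_tendsto_of_tendsto_of_le_of_le' h2 h3 ?_ ?_
  · filter_upwards [eventually_ge_atTop 2000] with k hk
    have h4 := lower k hk
    have h5 : ((2 : ℝ) ^ k) < M k 3 + 4 * (k : ℝ) ^ 3 := by exact_mod_cast h4
    have h6 : (0 : ℝ) < 2 ^ k := by positivity
    rw [le_div_iff₀ h6]
    have h7 : (1 - 4 * ((k : ℝ) ^ 3 / 2 ^ k)) * 2 ^ k = 2 ^ k - 4 * (k : ℝ) ^ 3 := by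
      field_simp
    rw [h7]; linarith
  · filter_upwards with k
    have h4 : M k 3 ≤ 2 ^ k + 1 := Nat.sInf_le (good_upper k)
    have h5 : (M k 3 : ℝ) ≤ 2 ^ k + 1 := by exact_mod_cast h4
    have h6 : (0 : ℝ) < 2 ^ k := by positivity
    rw [div_le_iff₀ h6]
    have h7 : (1 + (1 / 2 : ℝ) ^ k) * 2 ^ k = 2 ^ k + 1 := by
      rw [add_mul, one_mul, ← mul_pow]; norm_num
    rw [h7]; exact h5

end Pool.Agent.Results.MP_7de56e_co.LimitOne
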